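import Pool.Agent.Q48.RD.Win

/-!
# The expected number of almost primes in the intervals of length `(ln x)²` at integers with restricted digits

Let `g ≥ 2` be a base and `K` a large number of digits. For every `i < K` let `A i` be an arbitrary set of digits, such that the number
`|A 0| ⋯ |A (K - 1)|` of the integers `t < g ^ K` whose `i`-th digit belongs to `A i` for all `i < K` is at least `exp (- c K) g ^ K`
(`Rich`). Let `N ≤ g ^ (E K)` be arbitrary. We consider the numbers `x = N + t` with these `t`: they form a set with only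
`y ^ (1 - δ)` elements in an interval of length `y = g ^ K`, which may be an arbitrarily small power of `x`.

For a positive proportion of these `x` the interval `I (x)` between `x` and `x + (ln x)²` contains at least `κ ln x` integers with at
most `r` prime factors, all of them larger than `y ^ (1 / r)`; the expected number of primes in `I (x)` is `ln x`.

More generally, for all real `T` between `g + 1` and `g ^ K`: for at least the proportion `κ min (1, T / K)` of the `x` the interval
between `x` and `x + T` contains at least `κ max (1, T / K)` such integers. There is no condition on `N` and on the sets of digits.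
-/

set_option autoImplicit false

namespace Pool.Agent.Results.MP_45ff98_nt.AlmostPrimesExpectedNumber

open Filter Finset
open Pool.Agent.Q315.RD Pool.Agent.Q48.RD

open Classical in
/-- The number of the integers `m` with `a < m < b` which have at most `r` prime factors, all of them larger than `y ^ (1 / r)`. -/
noncomputable def between (y r : ℕ) (a b : ℝ) : ℕ := ((range ⌈b⌉₊).filter fun m : ℕ => a < m ∧ AlmostPrime y r m).card

lemma inClass_le {y r x T : ℕ} {b : ℝ} (h : (x : ℝ) + T < b) : inClass y r 1 0 x T ≤ between y r x b := by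
  classical
  unfold inClass between
  apply card_le_card_of_injOn (fun h => x + h)
  · intro h hh
    have h1 := mem_filter.1 (mem_coe.1 hh)
    have h2 := mem_Icc.1 h1.1
    rw [mem_coe]
    apply mem_filter.2
    refine ⟨mem_range.2 (Nat.lt_ceil.2 ?_), ?_, ?_⟩
    · have h3 : (h : ℝ) ≤ T := by exact_mod_cast h2.2
      push_cast
      linarith
    · exact_mod_cast (by omega : x < x + h)
    · have h3 := h1.2
      rwa [one_mul, add_zero] at h3
  · intro h _ h' _ h1
    simpa using h1

/-- **The expected number of almost primes in short intervals at integers with restricted digits.** -/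
theorem result (E : ℕ) :
    ∃ c : ℝ, 0 < c ∧ ∃ r₀ : ℕ, 2 ≤ r₀ ∧ ∀ r : ℕ, r₀ ≤ r → ∀ g : ℕ, 2 ≤ g → ∃ κ : ℝ, 0 < κ ∧
      ∀ᶠ K : ℕ in atTop, ∀ N : ℕ, N ≤ g ^ (E * K) → ∀ A : ℕ → Finset ℕ, Rich c g K A →
        κ * choices K A ≤ count g K A (fun t =>
          κ * Real.log (N + t) ≤ between (g ^ K) r (N + t) (N + t + Real.log (N + t) ^ 2)) ∧
        ∀ T : ℝ, (g : ℝ) + 1 ≤ T → T ≤ (g : ℝ) ^ K →
          κ * min 1 (T / K) * choices K A ≤ count g K A (fun t => κ * max 1 (T / K) ≤ between (g ^ K) r (N + t) (N + t + T)) := by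
  classical
  obtain ⟨c, hc, r₀, hr₀, H⟩ := windowOne (E + 1)
  refine ⟨min c (1 / 8), by positivity, r₀, hr₀, fun r hr g hg => ?_⟩
  obtain ⟨κ, hκ, H⟩ := H r hr g hg
  have hg1 : (1 : ℝ) < g := by exact_mod_cast (by omega : 1 < g)
  have hlg : 0 < Real.log g := Real.log_pos hg1
  obtain ⟨μ, hμ⟩ : ∃ μ : ℝ, μ = min (κ / 2) (κ * Real.log g / 60) := ⟨_, rfl⟩
  have hμ0 : 0 < μ := by rw [hμ]; positivity
  refine ⟨μ, hμ0, ?_⟩
  have hlim : Tendsto (fun K : ℕ => ((E : ℝ) + 2) ^ 2 * Real.log g ^ 2 * ((K : ℝ) ^ 2 / (g : ℝ) ^ K)) atTop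
      (nhds (((E : ℝ) + 2) ^ 2 * Real.log g ^ 2 * 0)) :=
    (tendsto_pow_const_div_const_pow_of_one_lt 2 hg1).const_mul _
  rw [mul_zero] at hlim
  obtain ⟨K0, hK0⟩ := exists_nat_ge (20 * (g + 2) / Real.log g ^ 2)
  filter_upwards [H, small_part (κ / 2) (by positivity) g hg, hlim.eventually (gt_mem_nhds one_pos), eventually_ge_atTop (K0 + 4)]
    with K HK HS hL hK
  intro N hN A hA
  have hA1 : Rich c g K A := ⟨hA.1, hA.2.trans (by gcongr; exact min_le_left _ _)⟩
  have hA2 : Rich (1 / 8) g K A := ⟨hA.1, hA.2.trans (by gcongr; exact min_le_right _ _)⟩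
  have hKr : (0 : ℝ) < K := by exact_mod_cast (by omega : 0 < K)
  have hK1 : (1 : ℝ) ≤ K := by exact_mod_cast (by omega : 1 ≤ K)
  have hKK0 : (K0 : ℝ) ≤ K := by exact_mod_cast (by omega : K0 ≤ K)
  have hgK : (1 : ℝ) ≤ (g : ℝ) ^ K := one_le_pow₀ hg1.le
  have hN' : N ≤ g ^ ((E + 1) * K) := hN.trans (Nat.pow_le_pow_right (by omega) (by nlinarith))
  have hKE : g ^ K ≤ g ^ ((E + 1) * K) := Nat.pow_le_pow_right (by omega) (by nlinarith)
  have hcs : (0 : ℝ) ≤ choices K A := Nat.cast_nonneg _
  -- `T < T' ≤ T' + 1`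
  have hceil : ∀ T : ℝ, (g : ℝ) + 1 ≤ T → T ≤ (g : ℝ) ^ K → ∃ T' : ℕ, g ≤ T' ∧ T' ≤ g ^ ((E + 1) * K) ∧ (T' : ℝ) < T ∧ T / 2 ≤ T' := by
    intro T hT1 hT2
    have hT0 : 0 < T := by linarith
    refine ⟨⌈T⌉₊ - 1, ?_, ?_, ?_, ?_⟩
    · have : g < ⌈T⌉₊ := Nat.lt_ceil.2 (by linarith)
      omega
    · have : ⌈T⌉₊ ≤ g ^ K := Nat.ceil_le.2 (by push_cast; exact hT2)
      omega
    · have h1 : 1 ≤ ⌈T⌉₊ := Nat.one_le_ceil_iff.2 hT0
      rw [Nat.cast_sub h1]
      push_cast
      linarith [Nat.ceil_lt_add_one hT0.le]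
    · have h1 : 1 ≤ ⌈T⌉₊ := Nat.one_le_ceil_iff.2 hT0
      rw [Nat.cast_sub h1]
      push_cast
      linarith [Nat.le_ceil T]
  constructor
  · -- the interval `I (x)`
    obtain ⟨L, hLdef⟩ : ∃ L : ℝ, L = Real.log (max (N : ℝ) ((g : ℝ) ^ K)) := ⟨_, rfl⟩
    have hm1 : 1 ≤ max (N : ℝ) ((g : ℝ) ^ K) := hgK.trans (le_max_right _ _)
    have hL1 : K * Real.log g ≤ L := by
      rw [hLdef, ← Real.log_pow]
      exact Real.log_le_log (by positivity) (le_max_right _ _)
    have hLpos : 0 < L := lt_of_lt_of_le (by positivity) hL1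
    have hL2 : L ≤ (E + 1) * K * Real.log g := by
      rw [hLdef]
      have h1 : max (N : ℝ) ((g : ℝ) ^ K) ≤ (g : ℝ) ^ ((E + 1) * K) :=
        max_le (by exact_mod_cast hN') (by exact_mod_cast hKE)
      have h2 := Real.log_le_log (by linarith) h1
      rw [Real.log_pow] at h2
      push_cast at h2
      exact h2
    -- the length
    have hTlow : (g : ℝ) + 1 ≤ L ^ 2 / 16 := by
      have h1 : 20 * (g + 2) / Real.log g ^ 2 ≤ K := hK0.trans hKK0
      rw [div_le_iff₀ (by positivity)] at h1
      have h2 : (K : ℝ) * Real.log g ^ 2 ≤ L ^ 2 := by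
        calc (K : ℝ) * Real.log g ^ 2 ≤ K * Real.log g ^ 2 * K := le_mul_of_one_le_right (by positivity) hK1
          _ = (K * Real.log g) ^ 2 := by ring
          _ ≤ L ^ 2 := pow_le_pow_left₀ (by positivity) hL1 2
      linarith
    have hTupp : L ^ 2 / 16 ≤ (g : ℝ) ^ K := by
      rw [← mul_div_assoc, div_lt_one (by positivity)] at hL
      have h1 : L ^ 2 ≤ ((E : ℝ) + 2) ^ 2 * Real.log g ^ 2 * (K : ℝ) ^ 2 := by
        calc L ^ 2 ≤ ((E + 1) * K * Real.log g) ^ 2 := pow_le_pow_left₀ hLpos.le hL2 2
          _ ≤ ((E + 2) * K * Real.log g) ^ 2 := by gcongr; norm_num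
          _ = _ := by ring
      have h2 : 0 ≤ L ^ 2 := sq_nonneg _
      linarith
    obtain ⟨T', hT1, hT2, hT3, hT4⟩ := hceil (L ^ 2 / 16) hTlow hTupp
    have h3 := HK N T' hN' hT1 hT2 A hA1
    have hTK : κ * Real.log g / 32 * L ≤ κ * max 1 ((T' : ℝ) / K) := by
      have h4 : Real.log g / 32 * L ≤ (T' : ℝ) / K := by
        rw [le_div_iff₀ hKr]
        calc Real.log g / 32 * L * K = K * Real.log g * L / 32 := by ring
          _ ≤ L * L / 32 := by gcongr
          _ = L ^ 2 / 16 / 2 := by ring
          _ ≤ T' := hT4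
      calc κ * Real.log g / 32 * L = κ * (Real.log g / 32 * L) := by ring
        _ ≤ κ * ((T' : ℝ) / K) := mul_le_mul_of_nonneg_left h4 hκ.le
        _ ≤ _ := mul_le_mul_of_nonneg_left (le_max_right _ _) hκ.le
    have hmin : min 1 ((T' : ℝ) / K) = 1 := by
      apply min_eq_left
      rw [le_div_iff₀ hKr, one_mul]
      have h1 : 20 * (g + 2) / Real.log g ^ 2 ≤ K := hK0.trans hKK0
      rw [div_le_iff₀ (by positivity)] at h1
      have h2 : K * (20 * (g + 2)) ≤ L ^ 2 := by
        calc (K : ℝ) * (20 * (g + 2)) ≤ K * (K * Real.log g ^ 2) := mul_le_mul_of_nonneg_left h1 hKr.le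
          _ = (K * Real.log g) ^ 2 := by ring
          _ ≤ L ^ 2 := pow_le_pow_left₀ (by positivity) hL1 2
      have h5 : (K : ℝ) * 40 ≤ K * (20 * (g + 2)) := by
        apply mul_le_mul_of_nonneg_left _ hKr.le
        linarith
      clear * - h2 h5 hT4 hKr
      linarith
    rw [hmin, mul_one] at h3
    have h4 := count_split (g := g) (K := K) (A := A) (P := fun t => κ * max 1 ((T' : ℝ) / K) ≤ inClass (g ^ K) r 1 0 (N + t) T')
      (R := fun t => μ * Real.log (N + t) ≤ between (g ^ K) r (N + t) (N + t + Real.log (N + t) ^ 2)) (g ^ (K / 2)) (by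
        intro t ht hyt hP
        have hyt' : (g : ℝ) ^ (K / 2) ≤ t := by exact_mod_cast hyt
        have hyp : (1 : ℝ) ≤ (g : ℝ) ^ (K / 2) := one_le_pow₀ hg1.le
        have hNr : (0 : ℝ) ≤ N := Nat.cast_nonneg N
        have hx1 : 1 ≤ (N : ℝ) + t := by linarith
        have hlogx : L / 4 < Real.log (N + t) := by
          have h5 : (K / 2 : ℕ) * Real.log g ≤ Real.log (N + t) := by
            rw [← Real.log_pow]
            exact Real.log_le_log (by positivity) (by linarith)
          have h6 : (K : ℝ) * 3 / 8 ≤ ((K / 2 : ℕ) : ℝ) := by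
            have h7 : 3 * K ≤ 8 * (K / 2) := by omega
            have h8 : (3 : ℝ) * K ≤ 8 * ((K / 2 : ℕ) : ℝ) := by exact_mod_cast h7
            linarith
          have h9 : (K : ℝ) * 3 / 8 * Real.log g ≤ Real.log (N + t) := le_trans (mul_le_mul_of_nonneg_right h6 hlg.le) h5
          rcases le_total (N : ℝ) ((g : ℝ) ^ K) with h10 | h10
          · have h11 : L = K * Real.log g := by rw [hLdef, max_eq_right h10, Real.log_pow]
            rw [h11]
            have h12 : 0 < (K : ℝ) * Real.log g := by positivity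
            have h13 : (K : ℝ) * 3 / 8 * Real.log g = 3 / 8 * (K * Real.log g) := by ring
            rw [h13] at h9
            clear * - h9 h12
            linarith
          · have h11 : L = Real.log N := by rw [hLdef, max_eq_left h10]
            have h12 : Real.log N ≤ Real.log (N + t) := Real.log_le_log (by linarith) (by linarith)
            rw [h11] at hLpos ⊢
            clear * - h12 hLpos
            linarith
        have hlogx2 : Real.log (N + t) ≤ L * (15 / 8) := by
          have h5 : (t : ℝ) ≤ (g : ℝ) ^ K := by exact_mod_cast ht.le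
          have h6 : (N : ℝ) + t ≤ 2 * max (N : ℝ) ((g : ℝ) ^ K) := by
            have := le_max_left (N : ℝ) ((g : ℝ) ^ K)
            have := le_max_right (N : ℝ) ((g : ℝ) ^ K)
            linarith
          have h7 := Real.log_le_log (by linarith) h6
          rw [Real.log_mul (by norm_num) (by linarith), ← hLdef] at h7
          have h8 : Real.log 2 ≤ L * (7 / 8) := by
            have h9 : Real.log 2 ≤ Real.log g := Real.log_le_log (by norm_num) (by exact_mod_cast hg)
            have h10 : (4 : ℝ) ≤ K := by exact_mod_cast (by omega : 4 ≤ K)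
            have h11 : 4 * Real.log g ≤ K * Real.log g := mul_le_mul_of_nonneg_right h10 hlg.le
            clear * - h9 h11 hL1 hlg
            linarith
          clear * - h7 h8
          linarith
        have h5 : inClass (g ^ K) r 1 0 (N + t) T' ≤ between (g ^ K) r ((N + t : ℕ) : ℝ) ((N + t : ℕ) + Real.log (N + t) ^ 2) := by
          apply inClass_le
          have h6 : L ^ 2 / 16 < Real.log (N + t) ^ 2 := by
            have h7 : (L / 4) ^ 2 < Real.log (N + t) ^ 2 := pow_lt_pow_left₀ hlogx (by positivity) two_ne_zero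
            have h8 : (L / 4) ^ 2 = L ^ 2 / 16 := by ring
            linarith
          linarith
        push_cast at h5
        calc μ * Real.log (N + t) ≤ κ * Real.log g / 60 * (L * (15 / 8)) := by
              apply mul_le_mul _ hlogx2 (Real.log_nonneg hx1) (by positivity)
              rw [hμ]
              exact min_le_right _ _
          _ = κ * Real.log g / 32 * L := by ring
          _ ≤ κ * max 1 ((T' : ℝ) / K) := hTK
          _ ≤ inClass (g ^ K) r 1 0 (N + t) T' := hP
          _ ≤ _ := Nat.cast_le.2 h5)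
    have h5 := HS A hA2
    push_cast at h4
    have h6 : μ * choices K A ≤ κ / 2 * choices K A := mul_le_mul_of_nonneg_right (by rw [hμ]; exact min_le_left _ _) hcs
    linarith
  · intro T hT1 hT2
    obtain ⟨T', hT3, hT4, hT5, hT6⟩ := hceil T hT1 hT2
    have h3 := HK N T' hN' hT3 hT4 A hA1
    have hTpos : 0 < T := by linarith
    have hhalf : (1 / 2 : ℝ) * (T / K) ≤ (T' : ℝ) / K := by
      rw [← mul_div_assoc]
      exact div_le_div_of_nonneg_right (by linarith) hKr.le
    have hμκ : μ ≤ κ / 2 := by rw [hμ]; exact min_le_left _ _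
    refine le_trans ?_ (h3.trans (Nat.cast_le.2 (count_mono fun t ht hP => ?_)))
    · apply mul_le_mul_of_nonneg_right _ hcs
      calc μ * min 1 (T / K) ≤ κ / 2 * min 1 (T / K) := mul_le_mul_of_nonneg_right hμκ (by positivity)
        _ = κ * (1 / 2 * min 1 (T / K)) := by ring
        _ ≤ κ * min 1 ((T' : ℝ) / K) := by
            apply mul_le_mul_of_nonneg_left _ hκ.le
            apply le_min
            · have := min_le_left 1 (T / K)
              linarith
            · exact le_trans (mul_le_mul_of_nonneg_left (min_le_right _ _) (by norm_num)) hhalf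
    · have h5 : inClass (g ^ K) r 1 0 (N + t) T' ≤ between (g ^ K) r ((N + t : ℕ) : ℝ) ((N + t : ℕ) + T) := by
        apply inClass_le
        linarith
      push_cast at h5
      refine le_trans ?_ (hP.trans (Nat.cast_le.2 h5))
      have hmax0 : 0 ≤ max 1 (T / K) := zero_le_one.trans (le_max_left _ _)
      calc μ * max 1 (T / K) ≤ κ / 2 * max 1 (T / K) := mul_le_mul_of_nonneg_right hμκ hmax0
        _ = κ * (1 / 2 * max 1 (T / K)) := by ring
        _ ≤ κ * max 1 ((T' : ℝ) / K) := by
            apply mul_le_mul_of_nonneg_left _ hκ.le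
            rw [mul_max_of_nonneg _ _ (by norm_num : (0 : ℝ) ≤ 1 / 2)]
            exact max_le_max (by norm_num) hhalf

end Pool.Agent.Results.MP_45ff98_nt.AlmostPrimesExpectedNumber
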