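import Pool.Agent.Q46.IP.Tools
import Pool.Agent.Q46.SL.Hyp

/-!
# Prescribed almost primes in long intervals around both coordinates of points of modular hyperbolas

The problem asks for primes in all intervals of length `log² x`. In the opposite direction we find intervals of length `κ
rankin(p)` around BOTH coordinates of many points of every modular hyperbola (in boxes of area `p ^ (3 / 2 + ε)`) in which
exactly the numbers of an arbitrary prescribed pattern `t` of size up to `(log p) ^ B` are almost primes and everything else is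
divisible by a prime `≤ log p`; with `t` empty (`l = 0`) these are gaps, with `t = 0` almost primes in the middle of long gaps.

Let `p` be a large prime. In every box `[A1, A1 + N1) × [A2, A2 + N2)` with `N1 N2 ≥ p ^ (3 / 2 + ε)` (where Weil's bound gives about
`N1 N2 / p` points of the modular hyperbola `x y ≡ c (mod p)`) there are many points BOTH of whose coordinates, a number and a
multiple of its inverse modulo `p`, have the property.

Here the property is: all `x + t_j` have at most `R` prime factors, all larger than `M ^ κ`, while EVERY other integer within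
distance `κ rankin(M)` of `x` has a prime factor `≤ log M`; `t` is an arbitrary pattern without local obstruction, `|t_j| ≤ (log
M) ^ B`, and `rankin(M) = log M log₂ M log₄ M / (log₃ M) ^ 2`. (`M = p`)

Design and proof: helper46 (modules `Pool.Agent.Q46.IP.*`, `Pool.Agent.Q46.SL.*`): the Rankin covering argument with holes at the
pattern gives a modulus and a residue class in which everything else near the pattern is covered by the small primes; the sieve is
applied to the vectors of residues in this class, which are equidistributed with a power saving by bounds for exponential sums.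
-/

set_option autoImplicit false

namespace Pool.Agent.Results.MP_45ff98_nt.ModularHyperbolas

open Finset Polynomial Filter
open Pool.Agent.Q46.SL hiding Almost
open Pool.Agent.Q46.IP (Lone csL evI sysT adm_pair adm_one lone_tuple lone_pair lone_one)

/-- `n` is not zero and has at most `R` prime factors (counted with multiplicity), all larger than `z` -/
def Almost (z : ℝ) (R : ℕ) (n : ℤ) : Prop :=
  n ≠ 0 ∧ n.natAbs.primeFactorsList.length ≤ R ∧ ∀ q : ℕ, q.Prime → (q : ℤ) ∣ n → z < q

/-- Rankin's function `log M log₂ M log₄ M / (log₃ M) ^ 2` (iterated logarithms) -/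
noncomputable def rankin (M : ℝ) : ℝ :=
  Real.log M * Real.log (Real.log M) * Real.log (Real.log (Real.log (Real.log M))) /
    (Real.log (Real.log (Real.log M))) ^ 2

/-- modulo every prime some residue is different from all `-t_j` -/
def Adm {l : ℕ} (t : Fin l → ℤ) : Prop := ∀ q : ℕ, q.Prime → ∃ a < q, ∀ j, ¬ (q : ℤ) ∣ a + t j

/-- `x` is positive, all `x + t_j` have at most `R` prime factors, all larger than `M ^ κ`, and every other integer `x + i` with
`|i| ≤ κ rankin(M)` has a prime factor `≤ log M` -/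
def Alone {l : ℕ} (t : Fin l → ℤ) (κ M : ℝ) (R : ℕ) (x : ℤ) : Prop :=
  0 < x ∧ (∀ j, Almost (M ^ κ) R (x + t j)) ∧
    ∀ i : ℤ, |(i : ℝ)| ≤ κ * rankin M → (∀ j, i ≠ t j) → ∃ q : ℕ, q.Prime ∧ (q : ℝ) ≤ Real.log M ∧ (q : ℤ) ∣ x + i

/-- Every pattern `t` without local obstruction occurs in complete isolation (all other integers near it divisible by primes `≤ log p`) at both coordinates of many points of modular hyperbolas. -/
theorem result (l B : ℕ) (ε : ℝ) (hε : 0 < ε) (hε1 : ε ≤ 1) :
    ∃ κ : ℝ, 0 < κ ∧ ∃ R p₀ : ℕ, ∀ p : ℕ, p₀ ≤ p → p.Prime → ∀ t : Fin l → ℤ, Adm t → (∀ j, |(t j : ℝ)| ≤ Real.log p ^ B) → ∀ c : ℤ, ¬ (p : ℤ) ∣ c → ∀ A1 N1 A2 N2 : ℕ, A1 + N1 ≤ p → A2 + N2 ≤ p →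
      (p : ℝ) ^ (3 / 2 + ε) ≤ (N1 : ℝ) * N2 →
      ∃ G : Finset (ℕ × ℕ), ((N1 : ℝ) * N2 / p) * (p : ℝ) ^ (-ε) ≤ G.card ∧
        ∀ z ∈ G, (A1 ≤ z.1 ∧ z.1 < A1 + N1) ∧ (A2 ≤ z.2 ∧ z.2 < A2 + N2) ∧ (p : ℤ) ∣ z.1 * z.2 - c ∧
          Alone t κ p R z.1 ∧ Alone t κ p R z.2 := by
  obtain ⟨κ, hκ, cc, hcc, p₀, h⟩ := Pool.Agent.Q46.SL.hyperbola (Lone (B + 1) : PE l 0 l → ℝ → ℝ → ℤ → Prop)
    (fun k' M => M ^ (-(ε / (2 * (((2 : ℕ) : ℝ) + 1)) * k'))) (fun k' _ => csL l l (B + 1) (ε / (2 * (((2 : ℕ) : ℝ) + 1))) (by positivity) k') ε hε hε1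
  obtain ⟨p₁, hp₁8, hp₁, hp₂⟩ := evI hcc hε hκ 2
  refine ⟨κ, hκ, ⌊((l : ℝ) + 2) / κ⌋₊, max p₁ p₀, ?_⟩
  intro p hp hpp t hadm hts c hc A1 N1 A2 N2 hA1 hA2 hN
  have hpr : (p₁ : ℝ) ≤ p := by exact_mod_cast (le_max_left _ _).trans hp
  obtain ⟨G, hG, hG2⟩ := h p ((le_max_right _ _).trans hp) (sysT t hadm) hpp c hc A1 N1 A2 N2 hA1 hA2 hN
  refine ⟨G, le_trans (hp₁ _ hpr _ (by positivity)) hG, ?_⟩
  intro z hz
  obtain ⟨a1, a2, a3, a4, a5⟩ := hG2 z hz
  exact ⟨a1, a2, a3, lone_tuple hp₁8 hpr hts a4 (by exact_mod_cast (by omega : z.1 ≤ p)), lone_tuple hp₁8 hpr hts a5 (by exact_mod_cast (by omega : z.2 ≤ p))⟩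

end Pool.Agent.Results.MP_45ff98_nt.ModularHyperbolas
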