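import Mathlib
import Pool.Agent.Q20.AS.WinLog

/-!
# Arbitrary test positions in the windows `(x, x + (log x)²)`

Fix `C`, `R` and `0 < δ < 1/2`. For all large `y`, for EVERY modulus `D ≤ y ^ (1 - 2 δ)`, every residue class `r` and
EVERY set `Θ` of at most `C (φ(D) / D) log y` real numbers of absolute value at most `C`, chosen in any way depending on
`y` and `D`, the short interval `[y, y + D (y ^ δ + 2)]` contains an integer `x ≡ r (mod D)` such that no prime lies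
within `R` of any of the points `x + θ (log x)²`, `θ ∈ Θ`. For `Θ ⊆ [0, 1]` these are points of the interval
`(x, x + (log x)²)` of the conjecture.
-/

set_option autoImplicit false

open Filter

namespace Pool.Agent.Results.MP_45ff98_nt.TestPositions

theorem result (C δ R : ℝ) (hδ : 0 < δ) (hδ1 : δ < 1 / 2) :
    ∀ᶠ y : ℕ in atTop, ∀ D r : ℕ, 1 ≤ D → (D : ℝ) ≤ (y : ℝ) ^ (1 - 2 * δ) →
      ∀ Θ : Finset ℝ, (∀ θ ∈ Θ, |θ| ≤ C) →
      (Θ.card : ℝ) ≤ C * ((D.totient : ℝ) / D) * Real.log y →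
      ∃ x : ℕ, y ≤ x ∧ (x : ℝ) ≤ y + D * ((y : ℝ) ^ δ + 2) ∧ x ≡ r [MOD D] ∧
        ∀ θ ∈ Θ, ∀ p : ℕ, p.Prime → R < |(p : ℝ) - (x + θ * Real.log x ^ 2)| :=
  Pool.Agent.Q20.AS.logWin C δ R hδ hδ1

end Pool.Agent.Results.MP_45ff98_nt.TestPositions
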