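import Pool.Agent.Q39.RD.Final

set_option autoImplicit false

/-!
# Simultaneous record prime gaps around several sequences: few exceptional vectors of multipliers

Let `a n j`, `b n j` (`j < r`) be real sequences with `a (n + 1) j - a n j ≥ n ^ (ρ - 1)` and
`|a n j| ≤ n ^ (c + o(1))`, where `0 < ρ ≤ 1`, `ρ ≤ c`; nothing is assumed on `b`.  Then all vectors
`α ∈ ℝ ^ r` outside a set of Hausdorff dimension at most `r - ρ / c` have the following property if
the numbers `α j * a n j + b n j` are at least a power of `n` for all large `n`: for every `δ > 0` there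
is `κ > 0` such that for all large `M` at least `M ^ (1 - δ)` of the indices `n` in `(M, 4 M]` are such
that all `r` intervals of radius `κ log M (log₂ M)² log₄ M / (log₃ M)²` around the numbers
`α j * a n j + b n j`, `j < r`, are free of primes.

Proof.  Sharp mean squares along the lines parallel to a coordinate axis, a count of the bad cubes
of side `N ^ (-c - η)`, and the covering sieve of the starting library for vectors, in the form
`Pool.Agent.Y961.JR.crit_scaledJ`.
-/

open MeasureTheory Filter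

namespace Pool.Agent.Results.MP_45ff98_nt.VectorsOfMultipliers

/-- `L(x) = log x (log log x)^2 log log log log x / (log log log x)^2`. -/
noncomputable def L (x : ℝ) : ℝ :=
  Real.log x * (Real.log (Real.log x)) ^ 2 * Real.log (Real.log (Real.log (Real.log x))) /
    (Real.log (Real.log (Real.log x))) ^ 2

/-- for every `δ > 0` there is `κ > 0` such that for all large `M` there are at least `M ^ (1 - δ)`
indices `n`, `M < n ≤ 4 M`, for which all the numbers `x n j`, `j < r`, are at distance greater than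
`κ L(M)` from all primes -/
def MeetRecordGapsTogether {r : ℕ} (x : ℕ → Fin r → ℝ) : Prop :=
  ∀ δ : ℝ, 0 < δ → ∃ κ : ℝ, 0 < κ ∧ ∀ᶠ M : ℝ in atTop, ∃ s : Finset ℕ,
    M ^ (1 - δ) ≤ (s.card : ℝ) ∧ ∀ n ∈ s, M < n ∧ (n : ℝ) ≤ 4 * M ∧
      ∀ j, ∀ q : ℕ, q.Prime → κ * L M < |(q : ℝ) - x n j|

theorem result (r : ℕ) (hr : 1 ≤ r) (ρ c : ℝ) (hρ : 0 < ρ) (hρ1 : ρ ≤ 1) (hρc : ρ ≤ c)
    (a b : ℕ → Fin r → ℝ)
    (ha : ∀ᶠ n : ℕ in atTop, ∀ j, (n : ℝ) ^ (ρ - 1) ≤ a (n + 1) j - a n j)
    (hac : ∀ c' : ℝ, c < c' → ∀ᶠ n : ℕ in atTop, ∀ j, |a n j| ≤ (n : ℝ) ^ c') :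
    dimH {α : Fin r → ℝ |
      (∃ ε : ℝ, 0 < ε ∧ ∀ᶠ n : ℕ in atTop, ∀ j, (n : ℝ) ^ ε ≤ α j * a n j + b n j) ∧
      ¬ MeetRecordGapsTogether (fun n j => α j * a n j + b n j)} ≤
        ENNReal.ofReal (r - ρ / c) :=
  Pool.Agent.Q39.RD.main_dim hr ρ c hρ.le hρ1 hρc (by linarith) a b ha hac

end Pool.Agent.Results.MP_45ff98_nt.VectorsOfMultipliers
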